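import Pool.Agent.H19.SYA.TB

/-!
Row CUS of the board `sya_modules` (MP_51eb24_ag): two generators of a localized polynomial ring
cannot be proper powers of one element.
-/

set_option autoImplicit false

namespace Pool.Agent.H74.SYA

open MvPolynomial

theorem exZero {k : Type} [Field k] [IsAlgClosed k] (w : Fin 2 → ℤ)
    (hw : ∀ i, 0 < w i) (Q : MvPolynomial (Fin 2) k) (β : ℤ) (hβ : 0 < β)
    (hQ : IsWeightedHomogeneous w Q β) : ∃ z : Fin 2 → k, z ≠ 0 ∧ eval z Q = 0 := by
  classical
  let f : Polynomial k := aeval ![Polynomial.X, 1] Q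
  have hf : f = ∑ d ∈ Q.support, Polynomial.C (coeff d Q) * Polynomial.X ^ (d 0) := by
    simp only [f, aeval_def, eval₂_eq', Fin.prod_univ_two, Matrix.cons_val_zero,
      Matrix.cons_val_one, one_pow, mul_one]
    rfl
  have hev : ∀ x : k, eval ![x, 1] Q = f.eval x := by
    intro x
    rw [hf, Polynomial.eval_finsetSum, eval_eq']
    refine Finset.sum_congr rfl fun d _ => ?_
    simp [Fin.prod_univ_two]
  by_cases hdeg : f.degree = 0
  · refine ⟨![1, 0], fun h => one_ne_zero (congrFun h 0), ?_⟩
    rw [eval_eq']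
    refine Finset.sum_eq_zero fun d hd => ?_
    have hd' : coeff d Q ≠ 0 := mem_support_iff.mp hd
    have hwd := hQ hd'
    have hval : ∀ e : Fin 2 →₀ ℕ, Finsupp.weight w e = (e 0 : ℤ) * w 0 + (e 1 : ℤ) * w 1 := by
      intro e
      rw [Finsupp.weight_apply, Finsupp.sum_fintype _ _ (by intro i; simp)]
      simp [Fin.sum_univ_two]
    have h1 : d 1 ≠ 0 := by
      intro h1
      have hd0 : d 0 ≠ 0 := by
        intro h0
        rw [hval, h0, h1] at hwd
        simp at hwd
        omega
      have hco : f.coeff (d 0) = coeff d Q := by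
        rw [hf, Polynomial.finsetSum_coeff, Finset.sum_eq_single d]
        · simp
        · intro e he hne
          have hwe := hQ (mem_support_iff.mp he)
          rw [Polynomial.coeff_C_mul, Polynomial.coeff_X_pow]
          rw [if_neg, mul_zero]
          intro h
          apply hne
          rw [hval] at hwe hwd
          rw [← h] at hwe
          have h3 : ((e 1 : ℤ) - (d 1 : ℤ)) * w 1 = 0 := by linarith
          rcases mul_eq_zero.mp h3 with h4 | h4
          · ext i
            fin_cases i
            · exact h.symm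
            · have : (e 1 : ℤ) = d 1 := by linarith
              exact_mod_cast this
          · exact absurd h4 (hw 1).ne'
        · intro h
          exact absurd hd h
      apply hd'
      rw [← hco]
      apply Polynomial.coeff_eq_zero_of_degree_lt
      rw [hdeg]
      exact_mod_cast Nat.pos_of_ne_zero hd0
    simp [Fin.prod_univ_two, h1]
  · obtain ⟨x, hx⟩ := IsAlgClosed.exists_root f hdeg
    refine ⟨![x, 1], fun h => one_ne_zero (congrFun h 1), ?_⟩
    rw [hev]
    exact hx

theorem pf_CUS : Pool.Agent.H19.SYA.T_CUS := by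
  intro k _ _ _ w P Q S α β m n c hw hα hβ hP hQ hm hn hmn hc hS hz hG
  classical
  have hP0 : P ≠ 0 := by
    intro h
    obtain ⟨z, hz0, hzQ⟩ := exZero w hw Q β hβ hQ
    exact hz z hz0 ⟨by simp [h], hzQ⟩
  have hQ0 : Q ≠ 0 := by
    intro h
    obtain ⟨z, hz0, hzP⟩ := exZero w hw P α hα hP
    exact hz z hz0 ⟨hzP, by simp [h]⟩
  -- exponents
  obtain ⟨x, hx⟩ : ∃ x, n * x % m = 1 :=
    let ⟨x, h⟩ := Nat.exists_mul_mod_eq_one_of_coprime hmn.symm (by omega)
    ⟨x, h.2⟩
  set y := n * x / m with hy
  have hxy : n * x = m * y + 1 := by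
    have := Nat.div_add_mod (n * x) m
    rw [hx] at this
    exact this.symm
  let K := FractionRing (MvPolynomial (Fin 2) k)
  let a := algebraMap (MvPolynomial (Fin 2) k) K
  have ha : Function.Injective a := IsFractionRing.injective _ _
  have haQ : a Q ≠ 0 := fun h => hQ0 (ha (by rw [h, map_zero]))
  let t' : K := a S ^ x / a Q ^ y
  have hSa : a S ^ m = a (C (c ^ m)) * a Q ^ n := by
    rw [← map_pow, hS, map_mul, map_pow a Q n]
  have h1 : t' ^ m = a (C (c ^ (m * x)) * Q) := by
    have : a S ^ x / a Q ^ y = t' := rfl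
    rw [← this, div_pow, ← pow_mul, ← pow_mul, mul_comm x m, pow_mul, hSa, mul_pow, ← map_pow,
      ← pow_mul, ← map_pow, ← pow_mul, hxy, div_eq_iff (pow_ne_zero _ haQ), map_mul, mul_assoc]
    congr 1
    rw [pow_succ, mul_comm m y]
    ring
  have h2 : t' ^ n = a (C (c ^ (m * y)) * S) := by
    have : a S ^ x / a Q ^ y = t' := rfl
    rw [← this, div_pow, ← pow_mul, ← pow_mul, mul_comm x n, hxy, pow_succ, pow_mul, hSa,
      mul_pow, ← map_pow, ← pow_mul, ← map_pow, ← pow_mul, div_eq_iff (pow_ne_zero _ haQ),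
      map_mul, mul_comm n y]
    ring
  obtain ⟨t, ht⟩ := IsIntegrallyClosed.exists_algebraMap_eq_of_isIntegral_pow
    (R := MvPolynomial (Fin 2) k) (K := K) (x := t') (n := m) (by omega)
    (by rw [h1]; exact isIntegral_algebraMap)
  have ht1 : t ^ m = C (c ^ (m * x)) * Q := by
    apply ha
    rw [map_pow, ← h1]
    exact congrArg (· ^ m) ht
  have ht2 : t ^ n = C (c ^ (m * y)) * S := by
    apply ha
    rw [map_pow, ← h2]
    exact congrArg (· ^ n) ht
  set q := (c ^ (m * x))⁻¹ with hq
  set s := (c ^ (m * y))⁻¹ with hs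
  have hQt : Q = C q * t ^ m := by
    rw [ht1, ← mul_assoc, ← C_mul, hq, inv_mul_cancel₀ (pow_ne_zero _ hc), C_1, one_mul]
  have hSt : S = C s * t ^ n := by
    rw [ht2, ← mul_assoc, ← C_mul, hs, inv_mul_cancel₀ (pow_ne_zero _ hc), C_1, one_mul]
  -- algebraic independence
  let B := Algebra.adjoin k (Set.range ![P, t])
  have hPB : P ∈ B := Algebra.subset_adjoin ⟨0, rfl⟩
  have htB : t ∈ B := Algebra.subset_adjoin ⟨1, rfl⟩
  have hRB : ∀ R : MvPolynomial (Fin 3) k, aeval ![P, Q, S] R ∈ B := by
    intro R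
    have h3 : ∀ i, (![P, Q, S] : Fin 3 → MvPolynomial (Fin 2) k) i ∈ B := by
      intro i
      fin_cases i
      · exact hPB
      · change Q ∈ B
        rw [hQt]
        exact B.mul_mem (B.algebraMap_mem q) (B.pow_mem htB _)
      · change S ∈ B
        rw [hSt]
        exact B.mul_mem (B.algebraMap_mem s) (B.pow_mem htB _)
    have h4 : aeval ![P, Q, S] R ∈ Algebra.adjoin k (Set.range ![P, Q, S]) := by
      rw [Algebra.adjoin_range_eq_range_aeval]
      exact ⟨R, rfl⟩
    refine (Algebra.adjoin_le ?_) h4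
    rintro _ ⟨i, rfl⟩
    exact h3 i
  have halg : Algebra.IsAlgebraic B (MvPolynomial (Fin 2) k) := by
    constructor
    intro f
    obtain ⟨N, R, hR⟩ := hG f
    refine ⟨Polynomial.C ⟨P ^ N, B.pow_mem hPB N⟩ * Polynomial.X -
      Polynomial.C ⟨_, hRB R⟩, ?_, ?_⟩
    · intro h
      have h5 := congrArg (fun g => Polynomial.coeff g 1) h
      simp only [Polynomial.coeff_sub, Polynomial.coeff_C_mul, Polynomial.coeff_X_one, mul_one,
        Polynomial.coeff_C_succ, sub_zero, Polynomial.coeff_zero] at h5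
      exact pow_ne_zero N hP0 (congrArg Subtype.val h5)
    · rw [map_sub, map_mul, Polynomial.aeval_X, Polynomial.aeval_C, Polynomial.aeval_C]
      change P ^ N * f - aeval ![P, Q, S] R = 0
      rw [hR, sub_self]
  have hai : AlgebraicIndependent k ![P, t] := by
    have := Algebra.IsAlgebraic.isTranscendenceBasis_of_le_trdeg_of_finite k ![P, t]
      (by rw [MvPolynomial.trdeg_of_isDomain]; simp)
    exact this.1
  -- the contradiction
  obtain ⟨N, R, hR⟩ := hG t
  have key : (X 0 ^ N * X 1 : MvPolynomial (Fin 2) k) =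
      aeval ![X 0, C q * X 1 ^ m, C s * X 1 ^ n] R := by
    apply hai
    rw [comp_aeval_apply _ (aeval ![P, t])]
    simp only [map_mul, map_pow, aeval_X, Matrix.cons_val_zero, Matrix.cons_val_one]
    rw [hR]
    congr 2
    funext i
    fin_cases i
    · simp
    · change Q = aeval ![P, t] (C q * X 1 ^ m)
      rw [map_mul, map_pow, aeval_X, aeval_C]
      exact hQt
    · change S = aeval ![P, t] (C s * X 1 ^ n)
      rw [map_mul, map_pow, aeval_X, aeval_C]
      exact hSt
  let θ : MvPolynomial (Fin 2) k →ₐ[k] DualNumber k := aeval ![1, DualNumber.eps]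
  have h6 := congrArg θ key
  have heps : ∀ j : ℕ, 2 ≤ j → (DualNumber.eps : DualNumber k) ^ j = 0 := by
    intro j hj
    obtain ⟨l, rfl⟩ := Nat.exists_eq_add_of_le hj
    rw [pow_add, pow_two, DualNumber.eps_mul_eps, zero_mul]
  have h7 : θ (X 0 ^ N * X 1) = DualNumber.eps := by
    simp [θ]
  have h8 : θ (aeval ![X 0, C q * X 1 ^ m, C s * X 1 ^ n] R) =
      algebraMap k (DualNumber k) (aeval ![1, 0, 0] R) := by
    rw [comp_aeval_apply _ θ, ← Algebra.ofId_apply,
      comp_aeval_apply _ (Algebra.ofId k (DualNumber k))]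
    congr 2
    funext i
    fin_cases i
    · simp [θ]
    · change θ (C q * X 1 ^ m) = Algebra.ofId k (DualNumber k) 0
      rw [map_mul, map_pow, map_zero]
      simp [θ, heps m hm]
    · change θ (C s * X 1 ^ n) = Algebra.ofId k (DualNumber k) 0
      rw [map_mul, map_pow, map_zero]
      simp [θ, heps n hn]
  rw [h7, h8] at h6
  have h9 := congrArg TrivSqZeroExt.snd h6
  have h10 : ∀ r : k, TrivSqZeroExt.snd (algebraMap k (DualNumber k) r) = 0 := fun r => rfl
  rw [h10, DualNumber.snd_eps] at h9
  exact one_ne_zero h9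

end Pool.Agent.H74.SYA
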