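import Pool.Agent.H19.SYA.TB

/-!
Row VIP of the board `sya_modules` (MP_51eb24_ag): leading coefficients of polynomials in `S`.
-/

set_option autoImplicit false

namespace Pool.Agent.H74.SYA

open MvPolynomial Pool.Agent.H2.ST Pool.Agent.H15.TG Pool.Agent.H19.SYA

section
variable {k : Type} [Field k]

/-- setting the first variable to zero -/
noncomputable def ev0 (k : Type) [Field k] :
    MvPolynomial (Fin 3) k →ₐ[k] MvPolynomial (Fin 3) k := aeval ![0, X 1, X 2]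

theorem ev0_of_dvd {B : MvPolynomial (Fin 3) k} (h : X 0 ∣ B) : ev0 k B = 0 := by
  obtain ⟨C', rfl⟩ := h
  simp [ev0]

theorem dvd_sub_ev0 (B : MvPolynomial (Fin 3) k) : X 0 ∣ B - ev0 k B := by
  rw [← Ideal.mem_span_singleton, ← Ideal.Quotient.mk_eq_mk_iff_sub_mem]
  have h : (Ideal.Quotient.mkₐ k (Ideal.span {(X 0 : MvPolynomial (Fin 3) k)})) =
      (Ideal.Quotient.mkₐ k (Ideal.span {(X 0 : MvPolynomial (Fin 3) k)})).comp (ev0 k) := by
    apply MvPolynomial.algHom_ext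
    intro i
    fin_cases i
    · simp only [AlgHom.comp_apply, ev0, aeval_X]
      change Ideal.Quotient.mk _ (X 0) = Ideal.Quotient.mk _ 0
      rw [Ideal.Quotient.mk_eq_mk_iff_sub_mem, sub_zero]
      exact Ideal.mem_span_singleton_self _
    · simp [ev0]
    · simp [ev0]
  exact DFunLike.congr_fun h B

theorem dvd_iff_ev0 (B : MvPolynomial (Fin 3) k) : X 0 ∣ B ↔ ev0 k B = 0 :=
  ⟨ev0_of_dvd, fun h => by have := dvd_sub_ev0 B; rwa [h, sub_zero] at this⟩

theorem X0_prime : Prime (X 0 : MvPolynomial (Fin 3) k) := by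
  refine ⟨X_ne_zero _, ?_, fun a b h => X_dvd_mul_iff.mp h⟩
  intro h
  have := ev0_of_dvd (k := k) (B := 1) (h.dvd)
  rw [map_one] at this
  exact one_ne_zero this

theorem X1_nd (n : ℕ) : ¬ (X 0 : MvPolynomial (Fin 3) k) ∣ X 1 ^ n := by
  intro h
  have := ev0_of_dvd h
  rw [map_pow] at this
  have h2 : ev0 k (X 1) = X 1 := by simp [ev0]
  rw [h2] at this
  exact pow_ne_zero n (X_ne_zero _) this

/-- the local ring at `X 0` -/
def OO (k : Type) [Field k] : Subring (RF k 3) where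
  carrier := {x | ∃ A B : MvPolynomial (Fin 3) k, ¬ X 0 ∣ B ∧
    x * algebraMap _ _ B = algebraMap _ _ A}
  mul_mem' := by
    rintro x y ⟨A, B, hB, h⟩ ⟨A', B', hB', h'⟩
    refine ⟨A * A', B * B', fun hd => (X0_prime.dvd_or_dvd hd).elim hB hB', ?_⟩
    rw [map_mul, map_mul, ← h, ← h']
    ring
  one_mem' := ⟨1, 1, fun h => X0_prime.not_dvd_one h, by simp⟩
  add_mem' := by
    rintro x y ⟨A, B, hB, h⟩ ⟨A', B', hB', h'⟩
    refine ⟨A * B' + A' * B, B * B', fun hd => (X0_prime.dvd_or_dvd hd).elim hB hB', ?_⟩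
    rw [map_mul, map_add, map_mul, map_mul, ← h, ← h']
    ring
  zero_mem' := ⟨0, 1, fun h => X0_prime.not_dvd_one h, by simp⟩
  neg_mem' := by
    rintro x ⟨A, B, hB, h⟩
    exact ⟨-A, B, hB, by rw [map_neg, ← h]; ring⟩

theorem OO_alg (A : MvPolynomial (Fin 3) k) : algebraMap _ (RF k 3) A ∈ OO k :=
  ⟨A, 1, fun h => X0_prime.not_dvd_one h, by simp⟩

theorem alg_ne {B : MvPolynomial (Fin 3) k} (h : B ≠ 0) : algebraMap _ (RF k 3) B ≠ 0 := by
  intro h2
  exact h (IsFractionRing.injective (MvPolynomial (Fin 3) k) (RF k 3) (by rw [h2, map_zero]))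

theorem OO_inv {B : MvPolynomial (Fin 3) k} (h : ¬ X 0 ∣ B) :
    (algebraMap _ (RF k 3) B)⁻¹ ∈ OO k := by
  have hB : B ≠ 0 := fun h2 => h (h2 ▸ dvd_zero _)
  exact ⟨1, B, h, by rw [inv_mul_cancel₀ (alg_ne hB), map_one]⟩

theorem OO_unit (e n : ℤ) (G : MvPolynomial (Fin 3) k) (hG : ¬ X 0 ∣ G)
    (h : xx k 0 ^ e * algebraMap _ (RF k 3) G * xx k 1 ^ n ∈ OO k) : 0 ≤ e := by
  by_contra hlt
  push Not at hlt
  have hx0 : xx k (0 : Fin 3) ≠ 0 := alg_ne (X_ne_zero _)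
  have hx1 : xx k (1 : Fin 3) ≠ 0 := alg_ne (X_ne_zero _)
  have h1 : xx k (0 : Fin 3) ^ (-e - 1) ∈ OO k := by
    obtain ⟨a, ha⟩ := Int.eq_ofNat_of_zero_le (show 0 ≤ -e - 1 by omega)
    rw [ha, zpow_natCast, xx, ← map_pow]
    exact OO_alg _
  have h2 : xx k (1 : Fin 3) ^ (n.natAbs : ℤ) ∈ OO k := by
    rw [zpow_natCast, xx, ← map_pow]
    exact OO_alg _
  have h3 := (OO k).mul_mem ((OO k).mul_mem h h1) h2
  obtain ⟨b, hb⟩ := Int.eq_ofNat_of_zero_le (show 0 ≤ n + (n.natAbs : ℤ) by omega)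
  have h4 : xx k 0 ^ e * algebraMap _ (RF k 3) G * xx k 1 ^ n * xx k 0 ^ (-e - 1) *
      xx k 1 ^ (n.natAbs : ℤ) = (xx k 0)⁻¹ * algebraMap _ (RF k 3) (G * X 1 ^ b) := by
    rw [map_mul, map_pow]
    have h5 : xx k (0 : Fin 3) ^ e * xx k 0 ^ (-e - 1) = (xx k 0)⁻¹ := by
      rw [← zpow_add₀ hx0, ← zpow_neg_one]
      congr 1
      ring
    have h6 : xx k (1 : Fin 3) ^ n * xx k 1 ^ (n.natAbs : ℤ) =
        algebraMap (MvPolynomial (Fin 3) k) (RF k 3) (X 1) ^ b := by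
      rw [← zpow_add₀ hx1, hb, zpow_natCast, xx]
    rw [← h5, ← h6]
    ring
  rw [h4] at h3
  obtain ⟨A, B, hB, hAB⟩ := h3
  have h7 : algebraMap _ (RF k 3) (G * X 1 ^ b * B) = algebraMap _ (RF k 3) (X 0 * A) := by
    rw [map_mul, map_mul _ (X 0) A, ← hAB]
    change _ = xx k 0 * _
    rw [← mul_assoc, ← mul_assoc, mul_inv_cancel₀ hx0, one_mul]
  have h8 := IsFractionRing.injective (MvPolynomial (Fin 3) k) (RF k 3) h7
  have h9 : X 0 ∣ G * X 1 ^ b * B := ⟨A, h8⟩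
  rcases X0_prime.dvd_or_dvd h9 with h10 | h10
  · rcases X0_prime.dvd_or_dvd h10 with h11 | h11
    · exact hG h11
    · exact X1_nd b h11
  · exact hB h10

/-! ### The substitution `X1 ↦ X1 ^ m` -/

/-- `X1 ↦ X1 ^ m` -/
noncomputable def pm (k : Type) [Field k] (m : ℕ) :
    MvPolynomial (Fin 3) k →ₐ[k] MvPolynomial (Fin 3) k := aeval ![X 0, X 1 ^ m, X 2]

theorem pm_inj (m : ℕ) (hm : 0 < m) : Function.Injective (pm k m) := by
  let Kb := AlgebraicClosure (RF k 3)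
  obtain ⟨r, hr⟩ := IsAlgClosed.exists_pow_nat_eq (algebraMap (RF k 3) Kb (xx k 1)) hm
  let ρ : MvPolynomial (Fin 3) k →ₐ[k] Kb :=
    aeval ![algebraMap (RF k 3) Kb (xx k 0), r, algebraMap (RF k 3) Kb (xx k 2)]
  have h : ∀ A, ρ (pm k m A) = algebraMap (RF k 3) Kb (algebraMap _ (RF k 3) A) := by
    intro A
    have h2 : ρ.comp (pm k m) = IsScalarTower.toAlgHom k (MvPolynomial (Fin 3) k) Kb := by
      apply MvPolynomial.algHom_ext
      intro i
      rw [AlgHom.comp_apply, pm, aeval_X, IsScalarTower.toAlgHom_apply,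
        IsScalarTower.algebraMap_apply (MvPolynomial (Fin 3) k) (RF k 3) Kb]
      fin_cases i
      · simp [ρ, xx]
      · simp [ρ, xx, hr]
      · simp [ρ, xx]
    have h3 := DFunLike.congr_fun h2 A
    rw [AlgHom.comp_apply, IsScalarTower.toAlgHom_apply,
      IsScalarTower.algebraMap_apply (MvPolynomial (Fin 3) k) (RF k 3) Kb] at h3
    exact h3
  intro A B hAB
  have h4 := h A
  rw [hAB, h B] at h4
  exact (IsFractionRing.injective (MvPolynomial (Fin 3) k) (RF k 3)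
    ((algebraMap (RF k 3) Kb).injective h4)).symm

theorem pm_nd (m : ℕ) (hm : 0 < m) (B : MvPolynomial (Fin 3) k) (h : ¬ X 0 ∣ B) :
    ¬ X 0 ∣ pm k m B := by
  intro h2
  apply h
  rw [dvd_iff_ev0] at h2 ⊢
  apply pm_inj m hm
  rw [map_zero, ← h2]
  have h3 : (pm k m).comp (ev0 k) = (ev0 k).comp (pm k m) := by
    apply MvPolynomial.algHom_ext
    intro i
    fin_cases i <;> simp [pm, ev0]
  exact DFunLike.congr_fun h3 B

/-! ### The automorphism `X1 ↦ ε X1` -/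

/-- `X1 ↦ ε X1` -/
noncomputable def se (ε : k) : MvPolynomial (Fin 3) k →ₐ[k] MvPolynomial (Fin 3) k :=
  aeval ![X 0, C ε * X 1, X 2]

theorem se_inj (ε : k) (h : ε ≠ 0) : Function.Injective (se ε) := by
  have h2 : (se ε⁻¹).comp (se ε) = AlgHom.id k _ := by
    apply MvPolynomial.algHom_ext
    intro i
    fin_cases i
    · simp [se]
    · simp only [se, AlgHom.comp_apply, aeval_X]
      change aeval ![X 0, C ε⁻¹ * X 1, X 2] (C ε * X 1 : MvPolynomial (Fin 3) k) = X 1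
      rw [map_mul, aeval_X, aeval_C]
      change C ε * (C ε⁻¹ * X 1) = X 1
      rw [← mul_assoc, ← C_mul, mul_inv_cancel₀ h, C_1, one_mul]
    · simp [se]
  exact Function.LeftInverse.injective (g := se ε⁻¹) fun A => DFunLike.congr_fun h2 A

theorem seR_inj (ε : k) (h : ε ≠ 0) : Function.Injective
    ((algebraMap (MvPolynomial (Fin 3) k) (RF k 3)).comp (se ε).toRingHom) :=
  (IsFractionRing.injective (MvPolynomial (Fin 3) k) (RF k 3)).comp (se_inj ε h)

/-- the automorphism of the field -/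
noncomputable def sg (ε : k) (h : ε ≠ 0) : RF k 3 →+* RF k 3 :=
  IsFractionRing.lift (seR_inj ε h)

theorem sg_alg (ε : k) (h : ε ≠ 0) (A : MvPolynomial (Fin 3) k) :
    sg ε h (algebraMap _ _ A) = algebraMap _ _ (se ε A) :=
  IsFractionRing.lift_algebraMap _ _

theorem sg_k (ε : k) (h : ε ≠ 0) (r : k) :
    sg ε h (algebraMap k (RF k 3) r) = algebraMap k (RF k 3) r := by
  rw [IsScalarTower.algebraMap_apply k (MvPolynomial (Fin 3) k) (RF k 3), sg_alg]
  congr 1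
  exact AlgHom.commutes _ _

theorem sg_0 (ε : k) (h : ε ≠ 0) : sg ε h (xx k 0) = xx k 0 := by
  rw [xx, sg_alg]
  simp [se]

theorem sg_1 (ε : k) (h : ε ≠ 0) :
    sg ε h (xx k 1) = algebraMap k (RF k 3) ε * xx k 1 := by
  rw [xx, sg_alg, IsScalarTower.algebraMap_apply k (MvPolynomial (Fin 3) k) (RF k 3), ← map_mul]
  congr 1
  simp [se, MvPolynomial.algebraMap_eq]

theorem sg_2 (ε : k) (h : ε ≠ 0) : sg ε h (xx k 2) = xx k 2 := by
  rw [xx, sg_alg]
  simp [se]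

theorem sg_pm (ε : k) (h : ε ≠ 0) (m : ℕ) (hm : ε ^ m = 1) (A : MvPolynomial (Fin 3) k) :
    sg ε h (algebraMap _ _ (pm k m A)) = algebraMap _ _ (pm k m A) := by
  rw [sg_alg]
  congr 1
  have h2 : (se ε).comp (pm k m) = pm k m := by
    apply MvPolynomial.algHom_ext
    intro i
    fin_cases i
    · simp [se, pm]
    · simp only [se, pm, AlgHom.comp_apply, aeval_X]
      change aeval ![X 0, C ε * X 1, X 2] (X 1 ^ m : MvPolynomial (Fin 3) k) = X 1 ^ m
      rw [map_pow, aeval_X]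
      change (C ε * X 1) ^ m = X 1 ^ m
      rw [mul_pow, ← C_pow, hm, C_1, one_mul]
    · simp [se, pm]
  exact DFunLike.congr_fun h2 A

/-- the conjugate expansions -/
noncomputable def ce (α β : ℤ) (w m K1 : ℕ) (c : ℕ → k) (κ : k) (ε : k) : RF k 3 :=
  ∑ K ∈ Finset.Icc 1 K1, algebraMap k (RF k 3) (c K * ε ^ (α.toNat * K)) *
    xx k 0 ^ (-((w * K : ℕ) : ℤ)) * xx k 1 ^ (α * K - m) +
    (xx k 2 + algebraMap k (RF k 3) κ) / (algebraMap k (RF k 3) (β : k) * xx k 1 ^ m)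

theorem sg_ce (α β : ℤ) (hα : 0 < α) (w m K1 : ℕ) (c : ℕ → k) (κ : k) (ε : k) (h : ε ≠ 0)
    (hm : ε ^ m = 1) : sg ε h (ce α β w m K1 c κ 1) = ce α β w m K1 c κ ε := by
  rw [ce, ce, map_add, map_sum, map_div₀, map_add, map_mul, map_pow, sg_2, sg_k, sg_k, sg_1,
    mul_pow, ← map_pow, hm, map_one, one_mul]
  congr 1
  refine Finset.sum_congr rfl fun K _ => ?_
  rw [map_mul, map_mul, map_zpow₀, map_zpow₀, sg_0, sg_1, sg_k, mul_zpow, one_pow, mul_one,
    map_mul (algebraMap k (RF k 3)) (c K)]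
  have h3 : ε ^ (α * K - m) = ε ^ (α.toNat * K) := by
    rw [zpow_sub₀ h, zpow_natCast ε m, hm, div_one]
    have h4 : (α * K : ℤ) = ((α.toNat * K : ℕ) : ℤ) := by
      push_cast
      rw [Int.toNat_of_nonneg hα.le]
    rw [h4, zpow_natCast]
  rw [← map_zpow₀, h3]
  ring

/-! ### From four variables to polynomials -/

/-- polynomials in four variables as polynomials in the last one -/
noncomputable def g1 (k : Type) [Field k] :
    MvPolynomial (Fin 4) k →+* Polynomial (MvPolynomial (Fin 3) k) :=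
  eval₂Hom (Polynomial.C.comp C)
    ![Polynomial.C (X 0), Polynomial.C (X 1), Polynomial.C (X 2), Polynomial.X]

theorem g1_inj : Function.Injective (g1 k) := by
  let g2 : Polynomial (MvPolynomial (Fin 3) k) →+* MvPolynomial (Fin 4) k :=
    Polynomial.eval₂RingHom (rename Fin.castSucc : MvPolynomial (Fin 3) k →ₐ[k] _).toRingHom (X 3)
  have h : g2.comp (g1 k) = RingHom.id _ := by
    apply MvPolynomial.ringHom_ext
    · intro r
      simp [g1, g2]
    · intro i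
      fin_cases i <;> simp [g1, g2]
  exact Function.LeftInverse.injective (g := g2) fun A => DFunLike.congr_fun h A

/-- the same over the field -/
noncomputable def gp (k : Type) [Field k] : MvPolynomial (Fin 4) k →+* Polynomial (RF k 3) :=
  (Polynomial.mapRingHom (algebraMap _ (RF k 3))).comp (g1 k)

theorem gpR_inj : Function.Injective ((algebraMap (Polynomial (RF k 3))
    (FractionRing (Polynomial (RF k 3)))).comp (gp k)) := by
  refine (IsFractionRing.injective (Polynomial (RF k 3))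
    (FractionRing (Polynomial (RF k 3)))).comp ?_
  exact (Polynomial.map_injective _
    (IsFractionRing.injective (MvPolynomial (Fin 3) k) (RF k 3))).comp g1_inj

theorem gp_coeff (G : MvPolynomial (Fin 4) k) (j : ℕ) :
    (gp k G).coeff j = algebraMap _ (RF k 3) ((g1 k G).coeff j) := by
  rw [gp, RingHom.comp_apply, Polynomial.coe_mapRingHom, Polynomial.coeff_map]

/-- the field homomorphism -/
noncomputable def Ph (k : Type) [Field k] : RF k 4 →+* FractionRing (Polynomial (RF k 3)) :=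
  IsFractionRing.lift gpR_inj

/-- the constants -/
noncomputable def gam (k : Type) [Field k] : RF k 3 →+* FractionRing (Polynomial (RF k 3)) :=
  (algebraMap (Polynomial (RF k 3)) _).comp Polynomial.C

theorem Ph_alg (A : MvPolynomial (Fin 4) k) :
    Ph k (algebraMap _ _ A) = algebraMap _ _ (gp k A) :=
  IsFractionRing.lift_algebraMap _ _

theorem Ph_k (r : k) : Ph k (algebraMap k (RF k 4) r) = gam k (algebraMap k (RF k 3) r) := by
  rw [IsScalarTower.algebraMap_apply k (MvPolynomial (Fin 4) k) (RF k 4), Ph_alg,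
    IsScalarTower.algebraMap_apply k (MvPolynomial (Fin 3) k) (RF k 3)]
  simp [gp, g1, gam, MvPolynomial.algebraMap_eq]

theorem Ph_0 : Ph k (xx k 0) = gam k (xx k 0) := by
  rw [xx, Ph_alg]
  simp [gp, g1, gam, xx]

theorem Ph_1 : Ph k (xx k 1) = gam k (xx k 1) := by
  rw [xx, Ph_alg]
  simp [gp, g1, gam, xx]

theorem Ph_2 : Ph k (xx k 2) = gam k (xx k 2) := by
  rw [xx, Ph_alg]
  simp [gp, g1, gam, xx]

theorem Ph_3 : Ph k (xx k 3) = algebraMap _ _ (Polynomial.X : Polynomial (RF k 3)) := by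
  rw [xx, Ph_alg]
  simp [gp, g1]

theorem Ph_pm (m : ℕ) (A : MvPolynomial (Fin 3) k) :
    Ph k (aeval ![xx k 0, xx k 1 ^ m, xx k 2] A) = gam k (algebraMap _ (RF k 3) (pm k m A)) := by
  have h : (Ph k).comp (aeval ![xx k 0, xx k 1 ^ m, xx k 2] :
      MvPolynomial (Fin 3) k →ₐ[k] RF k 4).toRingHom =
      (gam k).comp ((algebraMap _ (RF k 3)).comp (pm k m).toRingHom) := by
    apply MvPolynomial.ringHom_ext
    · intro r
      simp only [RingHom.comp_apply, AlgHom.toRingHom_eq_coe, RingHom.coe_coe, aeval_C]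
      rw [Ph_k]
      congr 1
      rw [IsScalarTower.algebraMap_apply k (MvPolynomial (Fin 3) k) (RF k 3)]
      congr 1
      exact ((pm k m).commutes r).symm
    · intro i
      simp only [RingHom.comp_apply, AlgHom.toRingHom_eq_coe, RingHom.coe_coe, aeval_X, pm]
      fin_cases i
      · exact Ph_0
      · change Ph k (xx k 1 ^ m) = gam k (algebraMap _ (RF k 3) (X 1 ^ m))
        rw [map_pow, Ph_1, map_pow, map_pow]
        rfl
      · exact Ph_2
  exact DFunLike.congr_fun h A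

theorem Ph_ES (α β : ℤ) (k1 l1 w m K1 : ℕ) (c : ℕ → k) (κ : k) :
    Ph k (ES k α β k1 l1 w m K1 c κ) = gam k (xx k 0 ^ k1 * xx k 1 ^ (m * l1)) *
      algebraMap _ _ (Polynomial.C (ce α β w m K1 c κ 1) +
        Polynomial.C (xx k 0) * Polynomial.X : Polynomial (RF k 3)) := by
  have h1 : ∀ x : RF k 3, algebraMap _ (FractionRing (Polynomial (RF k 3)))
      (Polynomial.C x) = gam k x := fun x => rfl
  rw [ES, map_mul, map_mul, map_pow, map_pow, Ph_0, Ph_1, map_mul (gam k), map_pow (gam k),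
    map_pow (gam k), map_add (algebraMap (Polynomial (RF k 3)) _), map_mul (algebraMap _ _), h1, h1]
  congr 1
  rw [map_add (Ph k), map_mul (Ph k), Ph_0, Ph_3, ce, map_add (Ph k), map_add (gam k), map_sum,
    map_sum, map_div₀, map_div₀, map_add (Ph k), Ph_2, Ph_k, map_mul (Ph k), Ph_k, map_pow, Ph_1,
    map_add (gam k), map_mul (gam k), map_pow (gam k)]
  congr 2
  refine Finset.sum_congr rfl fun K _ => ?_
  rw [map_mul, map_mul, map_zpow₀, map_zpow₀, Ph_0, Ph_1, Ph_k, one_pow, mul_one, map_mul,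
    map_mul, map_zpow₀, map_zpow₀]

/-- the polynomial in `S` -/
noncomputable def ff (k1 l1 m N D : ℕ) (Q : ℕ → MvPolynomial (Fin 3) k) : Polynomial (RF k 3) :=
  ∑ i ∈ Finset.range (D + 1), Polynomial.C (algebraMap _ (RF k 3) (pm k m (Q i)) *
    (xx k 0 ^ k1 * xx k 1 ^ (m * l1)) ^ i * ((xx k 0 * xx k 1 ^ m) ^ N)⁻¹) * Polynomial.X ^ i

theorem ff_map (k1 l1 m N D : ℕ) (Q : ℕ → MvPolynomial (Fin 3) k) (ε : k) (h : ε ≠ 0)
    (hm : ε ^ m = 1) : (ff k1 l1 m N D Q).map (sg ε h) = ff k1 l1 m N D Q := by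
  rw [ff, Polynomial.map_sum]
  refine Finset.sum_congr rfl fun i _ => ?_
  rw [Polynomial.map_mul, Polynomial.map_pow, Polynomial.map_X, Polynomial.map_C]
  have h1 : sg ε h (xx k 1) ^ m = xx k 1 ^ m := by
    rw [sg_1, mul_pow, ← map_pow, hm, map_one, one_mul]
  congr 2
  rw [map_mul, map_mul, map_inv₀, map_pow, map_mul, map_pow, map_pow, map_pow, map_mul, map_pow,
    sg_pm ε h m hm, sg_0, pow_mul (sg ε h (xx k 1)), h1, ← pow_mul]

theorem comp_mem (α β : ℤ) (hα : 0 < α) (k1 l1 w m K1 : ℕ) (c : ℕ → k) (κ : k) (N M D : ℕ)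
    (Q : ℕ → MvPolynomial (Fin 3) k) (G : MvPolynomial (Fin 4) k)
    (hG : aeval ![xx k 0, xx k 1 ^ m, xx k 2, ES k α β k1 l1 w m K1 c κ]
      (∑ i ∈ Finset.range (D + 1), rename Fin.castSucc (Q i) * X 3 ^ i) * xx k 1 ^ M =
        xx k 0 ^ N * algebraMap _ (RF k 4) G)
    (ε : k) (hε : ε ≠ 0) (hεm : ε ^ m = 1) (j : ℕ) :
    ((ff k1 l1 m N D Q).comp (Polynomial.C (ce α β w m K1 c κ ε) +
      Polynomial.C (xx k 0) * Polynomial.X)).coeff j ∈ OO k := by
  have hx0 : xx k (0 : Fin 3) ≠ 0 := alg_ne (X_ne_zero _)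
  have hx1 : xx k (1 : Fin 3) ≠ 0 := alg_ne (X_ne_zero _)
  have hA : (ff k1 l1 m N D Q).comp (Polynomial.C (ce α β w m K1 c κ 1) +
      Polynomial.C (xx k 0) * Polynomial.X) * Polynomial.C (xx k 1 ^ (M + m * N)) = gp k G := by
    set L0 : Polynomial (RF k 3) := Polynomial.C (ce α β w m K1 c κ 1) +
      Polynomial.C (xx k 0) * Polynomial.X with hL0
    apply IsFractionRing.injective (Polynomial (RF k 3)) (FractionRing (Polynomial (RF k 3)))
    have h1 : ∀ x : RF k 3, algebraMap _ (FractionRing (Polynomial (RF k 3)))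
        (Polynomial.C x) = gam k x := fun x => rfl
    have h2 := congrArg (Ph k) hG
    rw [map_mul, map_mul, map_pow, map_pow, Ph_0, Ph_1, Ph_alg, map_sum, map_sum] at h2
    have h3 : ∀ i ∈ Finset.range (D + 1), Ph k (aeval ![xx k 0, xx k 1 ^ m, xx k 2,
        ES k α β k1 l1 w m K1 c κ] (rename Fin.castSucc (Q i) * X 3 ^ i)) =
        gam k (algebraMap _ (RF k 3) (pm k m (Q i))) *
          (gam k (xx k 0 ^ k1 * xx k 1 ^ (m * l1)) * algebraMap _ _ L0) ^ i := by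
      intro i _
      rw [map_mul, map_mul, map_pow, map_pow, aeval_X, aeval_rename]
      have h4 : (![xx k 0, xx k 1 ^ m, xx k 2, ES k α β k1 l1 w m K1 c κ] : Fin 4 → RF k 4) ∘
          Fin.castSucc = ![xx k 0, xx k 1 ^ m, xx k 2] := by
        funext i
        fin_cases i <;> rfl
      rw [h4, Ph_pm]
      congr 2
      exact Ph_ES α β k1 l1 w m K1 c κ
    rw [Finset.sum_congr rfl h3] at h2
    have h5 : (ff k1 l1 m N D Q).comp L0 = ∑ i ∈ Finset.range (D + 1),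
        Polynomial.C (algebraMap _ (RF k 3) (pm k m (Q i)) *
        (xx k 0 ^ k1 * xx k 1 ^ (m * l1)) ^ i * ((xx k 0 * xx k 1 ^ m) ^ N)⁻¹) * L0 ^ i := by
      rw [ff, Polynomial.sum_comp]
      refine Finset.sum_congr rfl fun i _ => ?_
      rw [Polynomial.mul_comp, Polynomial.C_comp, Polynomial.X_pow_comp]
    have h6 : algebraMap _ (FractionRing (Polynomial (RF k 3))) ((ff k1 l1 m N D Q).comp L0) *
        gam k ((xx k 0 * xx k 1 ^ m) ^ N) = ∑ i ∈ Finset.range (D + 1),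
          gam k (algebraMap _ (RF k 3) (pm k m (Q i))) *
          (gam k (xx k 0 ^ k1 * xx k 1 ^ (m * l1)) * algebraMap _ _ L0) ^ i := by
      rw [h5, map_sum, Finset.sum_mul]
      refine Finset.sum_congr rfl fun i _ => ?_
      rw [map_mul, h1, map_pow, map_mul (gam k), map_mul (gam k), map_pow (gam k), map_inv₀,
        mul_pow (gam k (xx k 0 ^ k1 * xx k 1 ^ (m * l1)))]
      have h7 : gam k ((xx k 0 * xx k 1 ^ m) ^ N) ≠ 0 := by
        rw [Ne, map_eq_zero]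
        exact pow_ne_zero _ (mul_ne_zero hx0 (pow_ne_zero _ hx1))
      field_simp
    rw [← h6] at h2
    have h8 : gam k (xx k 0) ≠ 0 := by rwa [Ne, map_eq_zero]
    have h9 : gam k (xx k 1) ≠ 0 := by rwa [Ne, map_eq_zero]
    rw [map_mul, h1]
    apply mul_left_cancel₀ (pow_ne_zero N h8)
    rw [← h2, map_pow, map_pow, map_mul, map_pow, mul_pow, ← pow_mul, pow_add]
    ring
  have hB : (ff k1 l1 m N D Q).comp (Polynomial.C (ce α β w m K1 c κ ε) +
      Polynomial.C (xx k 0) * Polynomial.X) *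
      Polynomial.C ((algebraMap k (RF k 3) ε * xx k 1) ^ (M + m * N)) =
      (gp k G).map (sg ε hε) := by
    rw [← hA, Polynomial.map_mul, Polynomial.map_comp, ff_map _ _ _ _ _ _ ε hε hεm,
      Polynomial.map_C, map_pow (sg ε hε), sg_1, Polynomial.map_add, Polynomial.map_mul,
      Polynomial.map_C, Polynomial.map_C, Polynomial.map_X, sg_ce α β hα w m K1 c κ ε hε hεm, sg_0]
  have hC := congrArg (fun g => Polynomial.coeff g j) hB
  simp only [Polynomial.coeff_mul_C, Polynomial.coeff_map, gp_coeff, sg_alg] at hC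
  have hD : (algebraMap k (RF k 3) ε * xx k 1) ^ (M + m * N) =
      algebraMap (MvPolynomial (Fin 3) k) (RF k 3) ((C ε * X 1) ^ (M + m * N)) := by
    rw [map_pow, map_mul, IsScalarTower.algebraMap_apply k (MvPolynomial (Fin 3) k) (RF k 3)]
    rfl
  have hE : ¬ (X 0 : MvPolynomial (Fin 3) k) ∣ (C ε * X 1) ^ (M + m * N) := by
    intro h
    rw [mul_pow, ← C_pow] at h
    rcases X0_prime.dvd_or_dvd h with h | h
    · have := ev0_of_dvd h
      rw [ev0, aeval_C] at this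
      exact pow_ne_zero _ hε (C_injective _ _ (by rw [C_0]; exact this))
    · exact X1_nd _ h
  have hne : (algebraMap k (RF k 3) ε * xx k 1) ^ (M + m * N) ≠ 0 := by
    rw [hD]
    exact alg_ne fun h => hE (h ▸ dvd_zero _)
  rw [← eq_div_iff hne, div_eq_mul_inv, hD] at hC
  rw [hC]
  exact (OO k).mul_mem (OO_alg _) (OO_inv hE)

theorem ce_sub (α β : ℤ) (hα : 0 < α) (w m K1 : ℕ) (hw : 0 < w) (c : ℕ → k) (κ : k)
    (ε ε' : k) (T : ℕ) (hT1 : 1 ≤ T) (hT : T ≤ K1)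
    (hcT : c T * (ε ^ (α.toNat * T) - ε' ^ (α.toNat * T)) ≠ 0)
    (hmax : ∀ K, K ≤ K1 → T < K → c K * (ε ^ (α.toNat * K) - ε' ^ (α.toNat * K)) = 0) :
    ce α β w m K1 c κ ε ≠ ce α β w m K1 c κ ε' ∧
    (ce α β w m K1 c κ ε - ce α β w m K1 c κ ε')⁻¹ * xx k 0 ^ (-((w * T : ℕ) : ℤ)) ∈ OO k := by
  have hx0 : xx k (0 : Fin 3) ≠ 0 := alg_ne (X_ne_zero _)
  have hx1 : xx k (1 : Fin 3) ≠ 0 := alg_ne (X_ne_zero _)
  let B : MvPolynomial (Fin 3) k := ∑ K ∈ Finset.Icc 1 T,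
    C (c K * (ε ^ (α.toNat * K) - ε' ^ (α.toNat * K))) * X 0 ^ (w * (T - K)) *
      X 1 ^ (α.toNat * K)
  have hB0 : ev0 k B ≠ 0 := by
    have h1 : ev0 k B = C (c T * (ε ^ (α.toNat * T) - ε' ^ (α.toNat * T))) *
        X 1 ^ (α.toNat * T) := by
      rw [map_sum, Finset.sum_eq_single T]
      · rw [map_mul, map_mul, map_pow, map_pow, Nat.sub_self, mul_zero, pow_zero, mul_one]
        simp [ev0]
      · intro K hK hne
        have h2 : K < T := lt_of_le_of_ne (Finset.mem_Icc.mp hK).2 hne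
        have h3 : ev0 k (X 0) = 0 := by simp [ev0]
        rw [map_mul, map_mul, map_pow, h3, zero_pow (Nat.mul_ne_zero hw.ne' (by omega)),
          mul_zero, zero_mul]
      · intro h
        exact absurd (Finset.mem_Icc.mpr ⟨hT1, le_rfl⟩) h
    rw [h1]
    refine mul_ne_zero ?_ (pow_ne_zero _ (X_ne_zero _))
    rwa [Ne, C_eq_zero]
  have hBd : ¬ X 0 ∣ B := fun h => hB0 (ev0_of_dvd h)
  have hBn : B ≠ 0 := fun h => hBd (h ▸ dvd_zero _)
  have key : (ce α β w m K1 c κ ε - ce α β w m K1 c κ ε') * xx k 0 ^ (w * T) * xx k 1 ^ m =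
      algebraMap _ (RF k 3) B := by
    have h1 : ce α β w m K1 c κ ε - ce α β w m K1 c κ ε' = ∑ K ∈ Finset.Icc 1 T,
        algebraMap k (RF k 3) (c K * (ε ^ (α.toNat * K) - ε' ^ (α.toNat * K))) *
        xx k 0 ^ (-((w * K : ℕ) : ℤ)) * xx k 1 ^ (α * K - m) := by
      rw [ce, ce, add_sub_add_right_eq_sub, ← Finset.sum_sub_distrib]
      rw [← Finset.sum_subset (s₁ := Finset.Icc 1 T) (s₂ := Finset.Icc 1 K1)
        (Finset.Icc_subset_Icc le_rfl hT)]
      · refine Finset.sum_congr rfl fun K _ => ?_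
        rw [mul_sub (c K), map_sub]
        ring
      · intro K hK hK2
        have h3 : T < K := by
          by_contra h4
          exact hK2 (Finset.mem_Icc.mpr ⟨(Finset.mem_Icc.mp hK).1, not_lt.mp h4⟩)
        have h4 := hmax K (Finset.mem_Icc.mp hK).2 h3
        rw [← sub_mul, ← sub_mul, ← map_sub, ← mul_sub, h4, map_zero, zero_mul, zero_mul]
    rw [h1, Finset.sum_mul, Finset.sum_mul, map_sum]
    refine Finset.sum_congr rfl fun K hK => ?_
    have hKT := (Finset.mem_Icc.mp hK).2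
    rw [map_mul (algebraMap (MvPolynomial (Fin 3) k) (RF k 3)),
      map_mul (algebraMap (MvPolynomial (Fin 3) k) (RF k 3)),
      map_pow (algebraMap (MvPolynomial (Fin 3) k) (RF k 3)),
      map_pow (algebraMap (MvPolynomial (Fin 3) k) (RF k 3))]
    have h2 : xx k (0 : Fin 3) ^ (-((w * K : ℕ) : ℤ)) * xx k 0 ^ (w * T) =
        algebraMap (MvPolynomial (Fin 3) k) (RF k 3) (X 0) ^ (w * (T - K)) := by
      change _ = xx k 0 ^ _
      rw [← zpow_natCast, ← zpow_natCast, ← zpow_add₀ hx0]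
      congr 1
      rw [Nat.mul_sub, Nat.cast_sub (Nat.mul_le_mul_left w hKT)]
      ring
    have h3 : xx k (1 : Fin 3) ^ (α * K - m) * xx k 1 ^ m =
        algebraMap (MvPolynomial (Fin 3) k) (RF k 3) (X 1) ^ (α.toNat * K) := by
      change _ = xx k 1 ^ _
      rw [← zpow_natCast, ← zpow_natCast, ← zpow_add₀ hx1]
      congr 1
      push_cast
      rw [Int.toNat_of_nonneg hα.le]
      ring
    rw [← h2, ← h3, IsScalarTower.algebraMap_apply k (MvPolynomial (Fin 3) k) (RF k 3),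
      MvPolynomial.algebraMap_eq]
    ring
  have hne : ce α β w m K1 c κ ε - ce α β w m K1 c κ ε' ≠ 0 := by
    intro h
    rw [h, zero_mul, zero_mul] at key
    exact alg_ne hBn key.symm
  refine ⟨fun h => hne (sub_eq_zero.mpr h), ?_⟩
  have h5 : (ce α β w m K1 c κ ε - ce α β w m K1 c κ ε')⁻¹ * xx k 0 ^ (-((w * T : ℕ) : ℤ)) =
      algebraMap (MvPolynomial (Fin 3) k) (RF k 3) (X 1 ^ m) *
        (algebraMap (MvPolynomial (Fin 3) k) (RF k 3) B)⁻¹ := by
    rw [← key, zpow_neg, zpow_natCast, map_pow]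
    change _ = xx k 1 ^ m * _
    have := pow_ne_zero m hx1
    field_simp
  rw [h5]
  exact (OO k).mul_mem (OO_alg _) (OO_inv hBd)

open scoped Classical in
/-- the largest index at which the expansions differ -/
noncomputable def Kf (α : ℤ) (K1 : ℕ) (c : ℕ → k) (ε : k) : ℕ :=
  ((Finset.Icc 1 K1).filter fun K => c K ≠ 0 ∧ ε ^ (α.toNat * K) ≠ 1).sup id

theorem Kf_symm (α : ℤ) (K1 : ℕ) (c : ℕ → k) (ε : k) : Kf α K1 c ε⁻¹ = Kf α K1 c ε := by
  unfold Kf
  congr 1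
  ext K
  simp only [Finset.mem_filter, inv_pow, Ne, inv_eq_one]

theorem Kf_spec (α : ℤ) (K1 : ℕ) (c : ℕ → k) (ε : k)
    (h : ∃ K : ℕ, 1 ≤ K ∧ K ≤ K1 ∧ c K ≠ 0 ∧ ε ^ (α.toNat * K) ≠ 1) :
    1 ≤ Kf α K1 c ε ∧ Kf α K1 c ε ≤ K1 ∧ c (Kf α K1 c ε) ≠ 0 ∧
      ε ^ (α.toNat * Kf α K1 c ε) ≠ 1 ∧
      ∀ K, K ≤ K1 → Kf α K1 c ε < K → c K = 0 ∨ ε ^ (α.toNat * K) = 1 := by
  classical
  obtain ⟨K, h1, h2, h3, h4⟩ := h
  set S := (Finset.Icc 1 K1).filter fun K => c K ≠ 0 ∧ ε ^ (α.toNat * K) ≠ 1 with hS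
  have hne : S.Nonempty := ⟨K, Finset.mem_filter.mpr ⟨Finset.mem_Icc.mpr ⟨h1, h2⟩, h3, h4⟩⟩
  obtain ⟨T, hT, hTs⟩ := Finset.exists_mem_eq_sup S hne id
  have hK : Kf α K1 c ε = T := by
    unfold Kf
    rw [id_eq] at hTs
    rw [← hTs]
  rw [hK]
  have h5 := Finset.mem_filter.mp hT
  have h6 := Finset.mem_Icc.mp h5.1
  refine ⟨h6.1, h6.2, h5.2.1, h5.2.2, ?_⟩
  intro K' hK' hlt
  by_contra hcon
  push Not at hcon
  have h7 : K' ∈ S := Finset.mem_filter.mpr ⟨Finset.mem_Icc.mpr ⟨by omega, hK'⟩, hcon⟩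
  have h8 : id K' ≤ S.sup id := Finset.le_sup h7
  rw [hTs] at h8
  simp only [id_eq] at h8
  omega

theorem Kf_top (α : ℤ) (K1 : ℕ) (hK1 : 1 ≤ K1) (c : ℕ → k) (hc : c K1 ≠ 0) (ε : k)
    (h : ε ^ (α.toNat * K1) ≠ 1) : Kf α K1 c ε = K1 := by
  have h1 := Kf_spec α K1 c ε ⟨K1, hK1, le_rfl, hc, h⟩
  by_contra hne
  rcases h1.2.2.2.2 K1 le_rfl (lt_of_le_of_ne h1.2.1 hne) with h2 | h2
  · exact hc h2
  · exact h h2

theorem count (α : ℤ) (w m K1 : ℕ) (hm : 0 < m) (hK1 : 1 ≤ K1) (c : ℕ → k) (hc : c K1 ≠ 0)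
    (hcop : Nat.Coprime m α.toNat) (η : k) (hη : IsPrimitiveRoot η m)
    (hsep : ∀ ε : k, ε ^ m = 1 → ε ≠ 1 →
      ∃ K : ℕ, 1 ≤ K ∧ K ≤ K1 ∧ c K ≠ 0 ∧ ε ^ (α.toNat * K) ≠ 1) (i : Fin m) :
    w * ((m - Nat.gcd m K1) * K1 + Nat.gcd m K1 - 1) ≤
      ∑ j ∈ Finset.univ.erase i, w * Kf α K1 c (η ^ (i : ℕ) / η ^ (j : ℕ)) := by
  classical
  have hη0 : η ≠ 0 := hη.ne_zero hm.ne'
  have hpm : ∀ j : Fin m, (η ^ (i : ℕ) / η ^ (j : ℕ)) ^ m = 1 := by
    intro j
    rw [div_pow, ← pow_mul, ← pow_mul, mul_comm, pow_mul, hη.pow_eq_one, one_pow,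
      mul_comm, pow_mul, hη.pow_eq_one, one_pow, div_one]
  have hinj : ∀ j j' : Fin m, η ^ (i : ℕ) / η ^ (j : ℕ) = η ^ (i : ℕ) / η ^ (j' : ℕ) →
      j = j' := by
    intro j j' h
    rw [div_eq_div_iff (pow_ne_zero _ hη0) (pow_ne_zero _ hη0)] at h
    exact Fin.ext (hη.pow_inj j.2 j'.2 (mul_left_cancel₀ (pow_ne_zero _ hη0) h).symm)
  set g := Nat.gcd m K1 with hg
  have hg0 : 0 < g := Nat.gcd_pos_of_pos_left _ hm
  have hgm : g ≤ m := Nat.gcd_le_left _ hm
  set P := (Finset.univ : Finset (Fin m)).filter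
    (fun j : Fin m => (η ^ (i : ℕ) / η ^ (j : ℕ)) ^ (α.toNat * K1) = 1) with hP
  have hPc : P.card ≤ g := by
    have h1 : P.card ≤ (Polynomial.nthRoots g (1 : k)).toFinset.card := by
      apply Finset.card_le_card_of_injOn (fun j : Fin m => η ^ (i : ℕ) / η ^ (j : ℕ))
      · intro j hj
        have h2 := (Finset.mem_filter.mp hj).2
        simp only [Finset.mem_coe, Multiset.mem_toFinset]
        rw [Polynomial.mem_nthRoots hg0]
        have h3 : (η ^ (i : ℕ) / η ^ (j : ℕ)) ^ (m.gcd (α.toNat * K1)) = 1 :=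
          pow_gcd_eq_one.mpr ⟨hpm j, h2⟩
        rwa [Nat.Coprime.gcd_mul_left_cancel_right K1 hcop.symm] at h3
      · intro j _ j' _ h
        exact hinj j j' h
    exact h1.trans ((Multiset.toFinset_card_le _).trans (Polynomial.card_nthRoots g 1))
  have hiP : i ∈ P := by
    refine Finset.mem_filter.mpr ⟨Finset.mem_univ _, ?_⟩
    rw [div_self (pow_ne_zero _ hη0), one_pow]
  have hlow : ∀ j ∈ Finset.univ.erase i, w * (1 + if j ∈ P then 0 else K1 - 1) ≤
      w * Kf α K1 c (η ^ (i : ℕ) / η ^ (j : ℕ)) := by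
    intro j hj
    apply Nat.mul_le_mul_left
    have hne : η ^ (i : ℕ) / η ^ (j : ℕ) ≠ 1 := by
      intro h
      have h2 : η ^ (i : ℕ) / η ^ (j : ℕ) = η ^ (i : ℕ) / η ^ (i : ℕ) := by
        rw [h, div_self (pow_ne_zero _ hη0)]
      exact (Finset.mem_erase.mp hj).1 (hinj _ _ h2)
    split_ifs with h
    · exact (Kf_spec α K1 c _ (hsep _ (hpm j) hne)).1
    · have h2 : (η ^ (i : ℕ) / η ^ (j : ℕ)) ^ (α.toNat * K1) ≠ 1 := by
        intro h3
        exact h (Finset.mem_filter.mpr ⟨Finset.mem_univ _, h3⟩)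
      rw [Kf_top α K1 hK1 c hc _ h2]
      omega
  refine le_trans ?_ (Finset.sum_le_sum hlow)
  rw [← Finset.mul_sum]
  apply Nat.mul_le_mul_left
  rw [Finset.sum_add_distrib, Finset.sum_const, Finset.card_erase_of_mem (Finset.mem_univ _),
    Finset.card_univ, Fintype.card_fin, smul_eq_mul, mul_one]
  have h5 : ∑ j ∈ Finset.univ.erase i, (if j ∈ P then 0 else K1 - 1) =
      (m - P.card) * (K1 - 1) := by
    have h6 : ∑ j ∈ Finset.univ.erase i, (if j ∈ P then 0 else K1 - 1) =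
        ∑ j : Fin m, (if j ∈ P then 0 else K1 - 1) := by
      rw [← Finset.add_sum_erase Finset.univ _ (Finset.mem_univ i), if_pos hiP, zero_add]
    rw [h6, Finset.sum_ite, Finset.sum_const_zero, zero_add, Finset.sum_const, smul_eq_mul]
    congr 1
    have h7 : (Finset.univ.filter fun j => j ∉ P) = Finset.univ \ P := by
      ext j
      simp
    rw [h7, Finset.card_sdiff_of_subset (Finset.subset_univ _), Finset.card_univ,
      Fintype.card_fin]
  rw [h5]
  have h8 : (m - g) * (K1 - 1) ≤ (m - P.card) * (K1 - 1) := Nat.mul_le_mul_right _ (by omega)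
  have h9 : (m - g) * K1 = (m - g) * (K1 - 1) + (m - g) := by
    conv_lhs => rw [show K1 = (K1 - 1) + 1 by omega]
    rw [mul_add, mul_one]
  omega

end

theorem pf_VIP (hVI : T_VI) (hSEP : T_SEP) : T_VIP := by
  intro k _ _ _ W H y wy p q S α β k1 l1 L _ _ Θ v w m K1 c κ ζ hHy hPr hCh hEx hm2 F N D Q hF
  classical
  have hα : 0 < α := hCh.pa
  have hm : 0 < m := hCh.mp
  have hw : 0 < w := hCh.wp
  have hx0 : xx k (0 : Fin 3) ≠ 0 := alg_ne (X_ne_zero _)
  have hx1 : xx k (1 : Fin 3) ≠ 0 := alg_ne (X_ne_zero _)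
  have hsep := hSEP k W H p q S α β k1 l1 L Θ v w m K1 c κ ζ hHy.toPGr hPr hCh hEx
  have : NeZero (m : k) := ⟨Nat.cast_ne_zero.mpr hm.ne'⟩
  have : NeZero m := ⟨hm.ne'⟩
  obtain ⟨η, hη⟩ := HasEnoughRootsOfUnity.exists_primitiveRoot k m
  have hη0 : η ≠ 0 := hη.ne_zero hm.ne'
  have hK1 : 1 ≤ K1 := by
    obtain ⟨K, h1, h2, _⟩ := hsep η hη.pow_eq_one (hη.ne_one (by omega))
    omega
  have hcK : c K1 ≠ 0 := by
    rcases hEx.top with h | h
    · omega
    · exact h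
  have hcop : Nat.Coprime m α.toNat := by
    have h1 : IsCoprime α (m : ℤ) := by
      have := hPr.cop
      rw [hCh.wf] at this
      exact this.of_mul_right_left
    rw [Nat.coprime_comm, ← Nat.isCoprime_iff_coprime, Int.toNat_of_nonneg hα.le]
    exact h1
  set g := Nat.gcd m K1 with hg
  have hg0 : 0 < g := Nat.gcd_pos_of_pos_left _ hm
  have hgm : g ≤ m := Nat.gcd_le_left _ hm
  set s : ℕ := w * ((m - g) * K1 + g - 1) with hs
  have hscast : (s : ℤ) = w * (((m : ℤ) - g) * K1 + g - 1) := by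
    rw [hs, Nat.cast_mul, Nat.cast_sub (by omega), Nat.cast_add, Nat.cast_mul,
      Nat.cast_sub hgm]
    push_cast
    ring
  by_cases hQD : Q D = 0
  · refine ⟨N + ((D : ℤ) * (s - 1)).toNat, by rw [hQD]; exact dvd_zero _, hK1, ?_⟩
    rw [← hscast]
    have h1 : (D : ℤ) * (s - 1) ≤ (((D : ℤ) * (s - 1)).toNat : ℤ) := Int.self_le_toNat _
    have h2 : (1 : ℤ) ≤ m := by exact_mod_cast hm
    have h3 : (0 : ℤ) ≤ (((D : ℤ) * (s - 1)).toNat : ℤ) := Int.natCast_nonneg _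
    have h4 : (0 : ℤ) ≤ (k1 : ℤ) * D := by positivity
    push_cast
    nlinarith
  obtain ⟨j, Q', hQ', hQe⟩ := WfDvdMonoid.max_power_factor hQD
    (X0_prime (k := k)).irreducible
  refine ⟨j, ⟨Q', hQe⟩, hK1, ?_⟩
  rw [← hscast]
  obtain ⟨M, G, hG, -⟩ := hEx.val F N
    (∑ i ∈ Finset.range (D + 1), rename Fin.castSucc (Q i) * X 3 ^ i) (by
      rw [hF, map_sum]
      refine Finset.sum_congr rfl fun i _ => ?_
      have h4 : (![p, q, H, S] : Fin 4 → Pol k 2) ∘ Fin.castSucc = ![p, q, H] := by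
        funext i
        fin_cases i <;> rfl
      rw [map_mul, map_pow, aeval_X, aeval_rename, h4]
      rfl)
  have hpw : ∀ i : Fin m, (η ^ (i : ℕ)) ^ m = 1 := by
    intro i
    rw [← pow_mul, mul_comm, pow_mul, hη.pow_eq_one, one_pow]
  have hdeg : (ff k1 l1 m N D Q).natDegree ≤ D := by
    apply Polynomial.natDegree_sum_le_of_forall_le
    intro i hi
    refine (Polynomial.natDegree_C_mul_X_pow_le _ _).trans ?_
    have := Finset.mem_range.mp hi
    omega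
  have hVI' := hVI (RF k 3) (OO k) (xx k 0) (OO_alg _) hx0 m
    (fun i => ce α β w m K1 c κ (η ^ (i : ℕ)))
    (fun i j => w * Kf α K1 c (η ^ (i : ℕ) / η ^ (j : ℕ))) hm
    (fun i j => by
      rw [← Kf_symm, inv_div])
    (fun i i' hii => by
      have hne : η ^ (i : ℕ) / η ^ (i' : ℕ) ≠ 1 := by
        intro h
        rw [div_eq_one_iff_eq (pow_ne_zero _ hη0)] at h
        exact hii (Fin.ext (hη.pow_inj i.2 i'.2 h))
      have hsp := Kf_spec α K1 c _ (hsep (η ^ (i : ℕ) / η ^ (i' : ℕ))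
        (by rw [div_pow, hpw, hpw, div_one]) hne)
      set T := Kf α K1 c (η ^ (i : ℕ) / η ^ (i' : ℕ)) with hT
      have hdiv : ∀ K, (η ^ (i : ℕ)) ^ (α.toNat * K) - (η ^ (i' : ℕ)) ^ (α.toNat * K) = 0 ↔
          (η ^ (i : ℕ) / η ^ (i' : ℕ)) ^ (α.toNat * K) = 1 := by
        intro K
        rw [sub_eq_zero, div_pow, div_eq_one_iff_eq (pow_ne_zero _ (pow_ne_zero _ hη0))]
      exact ce_sub α β hα w m K1 hw c κ (η ^ (i : ℕ)) (η ^ (i' : ℕ)) T hsp.1 hsp.2.1
        (mul_ne_zero hsp.2.2.1 fun h => hsp.2.2.2.1 ((hdiv T).mp h))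
        (fun K hK hTK => by
          rcases hsp.2.2.2.2 K hK hTK with h | h
          · rw [h, zero_mul]
          · rw [(hdiv K).mpr h, mul_zero]))
    (ff k1 l1 m N D Q) D s hdeg
    (fun i j => comp_mem α β hα k1 l1 w m K1 c κ N M D Q G hG (η ^ (i : ℕ))
      (pow_ne_zero _ hη0) (hpw i) j)
    (fun i => count α w m K1 hm hK1 c hcK hcop η hη hsep i)
  have hcoef : (ff k1 l1 m N D Q).coeff D = algebraMap _ (RF k 3) (pm k m (Q D)) *
      (xx k 0 ^ k1 * xx k 1 ^ (m * l1)) ^ D * ((xx k 0 * xx k 1 ^ m) ^ N)⁻¹ := by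
    rw [ff, Polynomial.finsetSum_coeff, Finset.sum_eq_single D]
    · rw [Polynomial.coeff_C_mul, Polynomial.coeff_X_pow, if_pos rfl, mul_one]
    · intro i _ hne
      rw [Polynomial.coeff_C_mul, Polynomial.coeff_X_pow, if_neg hne.symm, mul_zero]
    · intro h
      exact absurd (Finset.mem_range.mpr (by omega)) h
  have hG' : ¬ X 0 ∣ (pm k m Q') ^ m := by
    intro h
    exact pm_nd m hm Q' hQ' (X0_prime.dvd_of_dvd_pow h)
  have hfin := OO_unit ((m : ℤ) * ((j : ℤ) - N + k1 * D) - (D : ℤ) * ((s : ℤ) - 1))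
    ((m : ℤ) * ((m * l1 : ℕ) * D - (m : ℤ) * N)) ((pm k m Q') ^ m) hG' (by
      convert hVI' using 1
      rw [hcoef, hQe, map_mul (pm k m), map_pow (pm k m), map_mul, map_pow, map_pow]
      have h1 : algebraMap _ (RF k 3) (pm k m (X 0)) = xx k 0 := by
        simp [pm, xx]
      rw [h1]
      set r := algebraMap (MvPolynomial (Fin 3) k) (RF k 3) (pm k m Q') with hr
      have h2 : (xx k (0 : Fin 3) ^ j * r * (xx k 0 ^ k1 * xx k 1 ^ (m * l1)) ^ D *
          ((xx k 0 * xx k 1 ^ m) ^ N)⁻¹) = xx k 0 ^ ((j : ℤ) - N + k1 * D) * r *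
          xx k 1 ^ (((m * l1 : ℕ) : ℤ) * D - (m : ℤ) * N) := by
        rw [zpow_add₀ hx0, zpow_sub₀ hx0, zpow_sub₀ hx1, zpow_mul, zpow_mul, zpow_mul,
          mul_pow, mul_pow]
        simp only [zpow_natCast]
        field_simp
      rw [h2]
      have e1 : xx k (0 : Fin 3) ^ ((m : ℤ) * ((j : ℤ) - N + k1 * D) - (D : ℤ) * ((s : ℤ) - 1)) =
          (xx k 0 ^ ((j : ℤ) - N + k1 * D)) ^ m * xx k 0 ^ (-((D : ℤ) * ((s : ℤ) - 1))) := by
        rw [sub_eq_add_neg, zpow_add₀ hx0, mul_comm (m : ℤ), zpow_mul, zpow_natCast]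
      have e2 : xx k (1 : Fin 3) ^ ((m : ℤ) * ((m * l1 : ℕ) * D - (m : ℤ) * N)) =
          (xx k 1 ^ (((m * l1 : ℕ) : ℤ) * D - (m : ℤ) * N)) ^ m := by
        rw [mul_comm (m : ℤ), zpow_mul, zpow_natCast]
      rw [e1, e2, mul_pow, mul_pow]
      generalize (xx k (0 : Fin 3) ^ ((j : ℤ) - N + k1 * D)) ^ m = a1
      generalize xx k (0 : Fin 3) ^ (-((D : ℤ) * ((s : ℤ) - 1))) = a2
      generalize (xx k (1 : Fin 3) ^ (((m * l1 : ℕ) : ℤ) * D - (m : ℤ) * N)) ^ m = a3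
      ring)
  linarith

end Pool.Agent.H74.SYA
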